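import Mathlib.GroupTheory.PresentedGroup
import Mathlib.Data.Set.Function
import Mathlib.Logic.Equiv.Basic

/-!
# The free Yang-Baxter solution is never injective

Negative answer to Q1 of MP_f0defb_al, for every non-empty set `X`.

For `a = i(x₀)` let `y` be the element with `λ_a(y) = a`.  Then `r(a, y) = (a, ρ_y(a))`, so
`y = ρ_y(a)` in the structure group, but `y ≠ ρ_y(a)` in the free solution, as one sees by mapping
to the permutation solution `r(x, y) = (y, τ(x))` with `τ ≠ id`.
-/

set_option autoImplicit false

universe u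

namespace Pool.Agent.Results.MP_f0defb_al.FreeNotInjective

/-- The map `r(x,y) = (λ_x(y), ρ_y(x))`; here `lam x y = λ_x(y)` and `rho y x = ρ_y(x)`. -/
def rMap {Y : Type u} (lam rho : Y → Y → Y) (p : Y × Y) : Y × Y := (lam p.1 p.2, rho p.2 p.1)

/-- `r × id` on `Y³`. -/
def r12 {Y : Type u} (r : Y × Y → Y × Y) (t : Y × Y × Y) : Y × Y × Y :=
  ((r (t.1, t.2.1)).1, (r (t.1, t.2.1)).2, t.2.2)

/-- `id × r` on `Y³`. -/
def r23 {Y : Type u} (r : Y × Y → Y × Y) (t : Y × Y × Y) : Y × Y × Y := (t.1, r t.2)

/-- A solution on `Y`: a map `r(x,y) = (λ_x(y), ρ_y(x))` which satisfies the braid relation and is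
non-degenerate (every `λ_x` and every `ρ_y` is bijective). -/
structure Solution (Y : Type u) where
  lam : Y → Y → Y
  rho : Y → Y → Y
  lam_bij : ∀ x, Function.Bijective (lam x)
  rho_bij : ∀ y, Function.Bijective (rho y)
  braid : ∀ t : Y × Y × Y,
    r12 (rMap lam rho) (r23 (rMap lam rho) (r12 (rMap lam rho) t)) =
      r23 (rMap lam rho) (r12 (rMap lam rho) (r23 (rMap lam rho) t))

/-- The map `r` of a solution. -/
def Solution.r {Y : Type u} (S : Solution Y) : Y × Y → Y × Y := rMap S.lam S.rho

/-- A morphism of solutions: `(f × f) ∘ r = s ∘ (f × f)`. -/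
def IsMorphism {Y Z : Type u} (S : Solution Y) (T : Solution Z) (f : Y → Z) : Prop :=
  Prod.map f f ∘ S.r = T.r ∘ Prod.map f f

/-- `(F, S)` with `i : X → F` is a free solution on `X`: every map from `X` to a solution extends
uniquely through `i` to a morphism. -/
def IsFree {X F : Type u} (S : Solution F) (i : X → F) : Prop :=
  ∀ (Z : Type u) (T : Solution Z) (g : X → Z), ∃! f : F → Z, IsMorphism S T f ∧ f ∘ i = g

/-- The relations `x ∘ y = λ_x(y) ∘ ρ_y(x)` of the structure group. -/
def rels {Y : Type u} (S : Solution Y) : Set (FreeGroup Y) :=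
  {w | ∃ x y : Y, w = FreeGroup.of x * FreeGroup.of y *
    (FreeGroup.of (S.r (x, y)).1 * FreeGroup.of (S.r (x, y)).2)⁻¹}

/-- The structure group `G(Y, r)`. -/
abbrev StructureGroup {Y : Type u} (S : Solution Y) : Type u := PresentedGroup (rels S)

/-- The canonical map `g_Y : Y → G(Y, r)`. -/
def gMap {Y : Type u} (S : Solution Y) : Y → StructureGroup S := PresentedGroup.of

/-! ### Construction of the free solution -/

/-- Terms in the operations `λ, ρ` and their inverse operations. -/
inductive Term (X : Type u) : Type u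
  | var : X → Term X
  | lam : Term X → Term X → Term X
  | rho : Term X → Term X → Term X
  | lamI : Term X → Term X → Term X
  | rhoI : Term X → Term X → Term X

/-- The congruence generated by the identities of solutions. -/
inductive Rel (X : Type u) : Term X → Term X → Prop
  | refl (a) : Rel X a a
  | symm {a b} : Rel X a b → Rel X b a
  | trans {a b c} : Rel X a b → Rel X b c → Rel X a c
  | cLam {a b c d} : Rel X a b → Rel X c d → Rel X (.lam a c) (.lam b d)
  | cRho {a b c d} : Rel X a b → Rel X c d → Rel X (.rho a c) (.rho b d)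
  | cLamI {a b c d} : Rel X a b → Rel X c d → Rel X (.lamI a c) (.lamI b d)
  | cRhoI {a b c d} : Rel X a b → Rel X c d → Rel X (.rhoI a c) (.rhoI b d)
  | l1 (a b) : Rel X (.lam a (.lamI a b)) b
  | l2 (a b) : Rel X (.lamI a (.lam a b)) b
  | r1 (a b) : Rel X (.rho a (.rhoI a b)) b
  | r2 (a b) : Rel X (.rhoI a (.rho a b)) b
  | b1 (x y z) : Rel X (.lam (.lam x y) (.lam (.rho y x) z)) (.lam x (.lam y z))
  | b2 (x y z) : Rel X (.rho (.lam (.rho y x) z) (.lam x y)) (.lam (.rho (.lam y z) x) (.rho z y))
  | b3 (x y z) : Rel X (.rho z (.rho y x)) (.rho (.rho z y) (.rho (.lam y z) x))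

instance relSetoid (X : Type u) : Setoid (Term X) where
  r := Rel X
  iseqv := ⟨Rel.refl, Rel.symm, Rel.trans⟩

/-- The underlying set of the free solution. -/
def FSol (X : Type u) : Type u := Quotient (relSetoid X)

def fLam {X : Type u} : FSol X → FSol X → FSol X :=
  Quotient.map₂ Term.lam (fun _ _ h _ _ h' => Rel.cLam h h')

def fRho {X : Type u} : FSol X → FSol X → FSol X :=
  Quotient.map₂ Term.rho (fun _ _ h _ _ h' => Rel.cRho h h')

def fLamI {X : Type u} : FSol X → FSol X → FSol X :=
  Quotient.map₂ Term.lamI (fun _ _ h _ _ h' => Rel.cLamI h h')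

def fRhoI {X : Type u} : FSol X → FSol X → FSol X :=
  Quotient.map₂ Term.rhoI (fun _ _ h _ _ h' => Rel.cRhoI h h')

/-- The free solution on `X`. -/
def fSol (X : Type u) : Solution (FSol X) where
  lam := fLam
  rho := fRho
  lam_bij x := by
    refine Function.bijective_iff_has_inverse.2 ⟨fLamI x, ?_, ?_⟩
    · intro y
      induction x using Quotient.inductionOn
      induction y using Quotient.inductionOn
      exact Quotient.sound (Rel.l2 _ _)
    · intro y
      induction x using Quotient.inductionOn
      induction y using Quotient.inductionOn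
      exact Quotient.sound (Rel.l1 _ _)
  rho_bij x := by
    refine Function.bijective_iff_has_inverse.2 ⟨fRhoI x, ?_, ?_⟩
    · intro y
      induction x using Quotient.inductionOn
      induction y using Quotient.inductionOn
      exact Quotient.sound (Rel.r2 _ _)
    · intro y
      induction x using Quotient.inductionOn
      induction y using Quotient.inductionOn
      exact Quotient.sound (Rel.r1 _ _)
  braid := by
    rintro ⟨x, y, z⟩
    induction x using Quotient.inductionOn
    induction y using Quotient.inductionOn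
    induction z using Quotient.inductionOn
    refine Prod.ext (Quotient.sound (Rel.b1 _ _ _)) (Prod.ext ?_ ?_)
    · exact Quotient.sound (Rel.b2 _ _ _)
    · exact Quotient.sound (Rel.b3 _ _ _)

/-- The canonical map `X → FSol X`. -/
def fI (X : Type u) : X → FSol X := fun x => Quotient.mk _ (Term.var x)

section lift

variable {X Z : Type u} (T : Solution Z) (g : X → Z)

theorem lam_I (a : Z) : ∃ f : Z → Z, (∀ b, T.lam a (f b) = b) ∧ ∀ b, f (T.lam a b) = b := by
  obtain ⟨f, h1, h2⟩ := Function.bijective_iff_has_inverse.1 (T.lam_bij a)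
  exact ⟨f, h2, h1⟩

theorem rho_I (a : Z) : ∃ f : Z → Z, (∀ b, T.rho a (f b) = b) ∧ ∀ b, f (T.rho a b) = b := by
  obtain ⟨f, h1, h2⟩ := Function.bijective_iff_has_inverse.1 (T.rho_bij a)
  exact ⟨f, h2, h1⟩

/-- The inverse of `λ_a`. -/
noncomputable def lamInv (a : Z) : Z → Z := (lam_I T a).choose

/-- The inverse of `ρ_a`. -/
noncomputable def rhoInv (a : Z) : Z → Z := (rho_I T a).choose

/-- Evaluation of terms. -/
noncomputable def ev : Term X → Z
  | .var x => g x
  | .lam a b => T.lam (ev a) (ev b)
  | .rho a b => T.rho (ev a) (ev b)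
  | .lamI a b => lamInv T (ev a) (ev b)
  | .rhoI a b => rhoInv T (ev a) (ev b)

theorem ev_rel {a b : Term X} (h : Rel X a b) : ev T g a = ev T g b := by
  induction h with
  | refl => rfl
  | symm _ ih => exact ih.symm
  | trans _ _ ih1 ih2 => exact ih1.trans ih2
  | cLam _ _ ih1 ih2 => simp only [ev, ih1, ih2]
  | cRho _ _ ih1 ih2 => simp only [ev, ih1, ih2]
  | cLamI _ _ ih1 ih2 => simp only [ev, ih1, ih2]
  | cRhoI _ _ ih1 ih2 => simp only [ev, ih1, ih2]
  | l1 a b => exact (lam_I T (ev T g a)).choose_spec.1 _
  | l2 a b => exact (lam_I T (ev T g a)).choose_spec.2 _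
  | r1 a b => exact (rho_I T (ev T g a)).choose_spec.1 _
  | r2 a b => exact (rho_I T (ev T g a)).choose_spec.2 _
  | b1 x y z => exact congrArg Prod.fst (T.braid (ev T g x, ev T g y, ev T g z))
  | b2 x y z => exact congrArg (fun p => p.2.1) (T.braid (ev T g x, ev T g y, ev T g z))
  | b3 x y z => exact congrArg (fun p => p.2.2) (T.braid (ev T g x, ev T g y, ev T g z))

noncomputable def lift : FSol X → Z := Quotient.lift (ev T g) (fun _ _ h => ev_rel T g h)

end lift

theorem isMorphism_iff {Y Z : Type u} (S : Solution Y) (T : Solution Z) (f : Y → Z) :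
    IsMorphism S T f ↔ (∀ x y, f (S.lam x y) = T.lam (f x) (f y)) ∧
      ∀ y x, f (S.rho y x) = T.rho (f y) (f x) := by
  constructor
  · intro h
    exact ⟨fun x y => congrArg Prod.fst (congrFun h (x, y)),
      fun y x => congrArg Prod.snd (congrFun h (x, y))⟩
  · rintro ⟨h1, h2⟩
    funext ⟨x, y⟩
    exact Prod.ext (h1 x y) (h2 y x)

theorem isFree_fSol (X : Type u) : IsFree (fSol X) (fI X) := by
  intro Z T g
  refine ⟨lift T g, ⟨?_, ?_⟩, ?_⟩
  · rw [isMorphism_iff]
    constructor
    · intro x y
      induction x using Quotient.inductionOn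
      induction y using Quotient.inductionOn
      rfl
    · intro x y
      induction x using Quotient.inductionOn
      induction y using Quotient.inductionOn
      rfl
  · funext x
    rfl
  · rintro f ⟨hf, hg⟩
    rw [isMorphism_iff] at hf
    funext p
    induction p using Quotient.inductionOn with
    | h t =>
      show f (Quotient.mk _ t) = ev T g t
      induction t with
      | var x => exact congrFun hg x
      | lam a b iha ihb =>
        have h := hf.1 (Quotient.mk _ a) (Quotient.mk _ b)
        rw [iha, ihb] at h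
        exact h
      | rho a b iha ihb =>
        have h := hf.2 (Quotient.mk _ a) (Quotient.mk _ b)
        rw [iha, ihb] at h
        exact h
      | lamI a b iha ihb =>
        have h := hf.1 (Quotient.mk _ a) (Quotient.mk _ (Term.lamI a b))
        have h3 : (fSol X).lam (Quotient.mk _ a) (Quotient.mk _ (Term.lamI a b)) =
            Quotient.mk _ b := Quotient.sound (Rel.l1 _ _)
        rw [h3, iha, ihb] at h
        apply (T.lam_bij (ev T g a)).1
        rw [← h]
        exact ((lam_I T (ev T g a)).choose_spec.1 _).symm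
      | rhoI a b iha ihb =>
        have h := hf.2 (Quotient.mk _ a) (Quotient.mk _ (Term.rhoI a b))
        have h3 : (fSol X).rho (Quotient.mk _ a) (Quotient.mk _ (Term.rhoI a b)) =
            Quotient.mk _ b := Quotient.sound (Rel.r1 _ _)
        rw [h3, iha, ihb] at h
        apply (T.rho_bij (ev T g a)).1
        rw [← h]
        exact ((rho_I T (ev T g a)).choose_spec.1 _).symm

/-! ### The permutation solution and the main theorem -/

/-- The permutation solution `r(x, y) = (y, τ(x))` on two points, `τ` the transposition. -/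
def permSol : Solution (ULift.{u} Bool) where
  lam _ y := y
  rho _ x := ⟨!x.down⟩
  lam_bij _ := Function.bijective_id
  rho_bij _ := by
    refine Function.bijective_iff_has_inverse.2 ⟨fun x => ⟨!x.down⟩, ?_, ?_⟩ <;>
    · intro x
      simp
  braid _ := rfl

/-- **The free solution is never injective.**  For every non-empty set `X` the free solution on `X`
exists, and for every free solution `(F, S)` on `X` the canonical map from `F` to the structure
group of `(F, S)` is not injective. -/
theorem result (X : Type u) [Nonempty X] :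
    (∃ (F : Type u) (S : Solution F) (i : X → F), IsFree S i) ∧
      ∀ (F : Type u) (S : Solution F) (i : X → F), IsFree S i →
        ¬ Function.Injective (gMap S) := by
  refine ⟨⟨FSol X, fSol X, fI X, isFree_fSol X⟩, ?_⟩
  intro F S i hfree hinj
  obtain ⟨x₀⟩ := ‹Nonempty X›
  obtain ⟨y, hy⟩ := (S.lam_bij (i x₀)).2 (i x₀)
  -- the two elements have the same image in the structure group
  have hG : gMap S y = gMap S (S.rho y (i x₀)) := by
    have hrel : (PresentedGroup.mk (rels S)) (FreeGroup.of (i x₀) * FreeGroup.of y *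
        (FreeGroup.of (S.r (i x₀, y)).1 * FreeGroup.of (S.r (i x₀, y)).2)⁻¹) = 1 :=
      PresentedGroup.one_of_mem ⟨i x₀, y, rfl⟩
    have h1 : (S.r (i x₀, y)).1 = i x₀ := hy
    have h2 : (S.r (i x₀, y)).2 = S.rho y (i x₀) := rfl
    rw [h1, h2, map_mul, map_inv, mul_inv_eq_one, map_mul, map_mul] at hrel
    exact mul_left_cancel hrel
  -- but they are distinct
  have hne : y ≠ S.rho y (i x₀) := by
    obtain ⟨f, ⟨hf, -⟩, -⟩ := hfree (ULift.{u} Bool) permSol (fun _ => ⟨true⟩)
    rw [isMorphism_iff] at hf
    intro h
    have h1 : f y = f (i x₀) := by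
      have := hf.1 (i x₀) y
      rw [hy] at this
      exact this.symm
    have h2 : f (S.rho y (i x₀)) = ⟨!(f (i x₀)).down⟩ := hf.2 y (i x₀)
    rw [← h, h1] at h2
    have h3 := congrArg ULift.down h2
    simp at h3
  exact hne (hinj hG)

end Pool.Agent.Results.MP_f0defb_al.FreeNotInjective
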